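import Mathlib
import Pool.Agent.Lib_MP_b23e6d_ins.Core
import Pool.Agent.Lib_MP_b23e6d_ins.Cycle

/-!
# A hereditary class of unbounded clique-width whose 2-connected prime members are cycles

The class consists of the finite induced subgraphs of cycles and of one infinite split graph.
-/

namespace Pool.Agent.Results.MP_b23e6d_co.PrimeMembersAreCycles

open SimpleGraph Pool.Agent.Lib_MP_b23e6d_ins

/-- There is a hereditary class `𝒢` of finite graphs such that for every `k` some graph of `𝒢`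
with `(9k + 6)(9k + 7)` vertices has clique-width greater than `k`, while every 2-connected prime
graph in `𝒢` has clique-width at most `4`. All the cycles `C_n`, `n ≥ 5`, are 2-connected prime
members of `𝒢`, and every nonempty prime graph in `𝒢` of minimum degree at least two (in
particular every 2-connected prime graph in `𝒢`) is a cycle `C_n`, `n ≥ 5`. -/
theorem result :
    ∃ 𝒢 : (V : Type) → SimpleGraph V → Prop, Hereditary 𝒢 ∧
      (∀ k : ℕ, ∃ (n : ℕ) (G : SimpleGraph (Fin n)),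
        n = (9 * k + 6) * (9 * k + 7) ∧ 𝒢 (Fin n) G ∧ ¬ CliqueWidthLE G k) ∧
      (∀ (V : Type) (G : SimpleGraph V), 𝒢 V G → TwoConnected G → IsPrime G →
        CliqueWidthLE G 4) ∧
      (∀ n : ℕ, 5 ≤ n →
        𝒢 (Fin n) (cycleGraph n) ∧ TwoConnected (cycleGraph n) ∧ IsPrime (cycleGraph n)) ∧
      (∀ (V : Type) (G : SimpleGraph V), 𝒢 V G → MinDegreeTwo G → IsPrime G →
        ∃ n : ℕ, 5 ≤ n ∧ Nonempty (G ≃g cycleGraph n)) := by
  have key : ∀ (V : Type) (G : SimpleGraph V), (Finite V ∧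
      (Nonempty (G ↪g LibMPb23e6d.S) ∨ ∃ n, Nonempty (G ↪g cycleGraph n))) →
      MinDegreeTwo G → IsPrime G → ∃ n : ℕ, 5 ≤ n ∧ Nonempty (G ≃g cycleGraph n) := by
    rintro V G ⟨hfin, ⟨⟨φ⟩⟩ | ⟨n, ⟨φ⟩⟩⟩ hd hp
    · exact (split_not_prime φ hd hp).elim
    · exact cyc_classify φ hd hp
  refine ⟨fun V G => Finite V ∧
    (Nonempty (G ↪g LibMPb23e6d.S) ∨ ∃ n, Nonempty (G ↪g cycleGraph n)), ?_, ?_, ?_, ?_, key⟩
  · refine ⟨fun V G h => h.1, ?_⟩
    rintro V W G H ⟨hfin, h⟩ ⟨ψ⟩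
    refine ⟨Finite.of_injective ψ ψ.injective, ?_⟩
    rcases h with ⟨⟨φ⟩⟩ | ⟨n, ⟨φ⟩⟩
    · exact Or.inl ⟨φ.comp ψ⟩
    · exact Or.inr ⟨n, ⟨φ.comp ψ⟩⟩
  · intro k
    refine ⟨_, LibMPb23e6d.Sfin (9 * k + 6), by ring, ⟨inferInstance, Or.inl
      ⟨SimpleGraph.Embedding.comap ⟨LibMPb23e6d.vmap _, LibMPb23e6d.vmap_injective _⟩ _⟩⟩,
      not_cwle_sfin k⟩
  · intro V G hG h2 hp
    obtain ⟨n, hn, ⟨e⟩⟩ := key V G hG (minDeg_of_twoConnected h2) hp
    obtain ⟨m, rfl⟩ : ∃ m, n = m + 3 := ⟨n - 3, by omega⟩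
    exact (cyc_cwle m).iso e.symm
  · intro n hn
    obtain ⟨m, rfl⟩ : ∃ m, n = m + 5 := ⟨n - 5, by omega⟩
    exact ⟨⟨inferInstance, Or.inr ⟨_, ⟨Embedding.refl⟩⟩⟩, cyc_twoConnected (m + 2), cyc_prime m⟩

end Pool.Agent.Results.MP_b23e6d_co.PrimeMembersAreCycles
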